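import Pool.Agent.Y680.CT.Main
import Pool.Agent.Y680.CT.Thr
import Pool.Agent.Y680.CU.Cloud
import Pool.Agent.Y680.CU.Dens

set_option autoImplicit false

/-! # Cloud-forest graphs that are not thundercloud-forest graphs with chromatic threshold at least
`1/2`, at edge probabilities `p = n^{-θ}` for every `θ` in `(0, 1/2)`

`H(a, K)` has two adjacent centres with `a 0` and `a 1` leaves and `K` cloud vertices joined to all
leaves. If `L = a 0 + a 1`, it has `m₂ = L (K+1) / (L+K)` and `δ_χ(H(a, K), p) ≥ 1/2` for all `p` in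
the range of Q1 with `p ≪ n^{-(L+K-1)/(L(K+1)-1)}`. -/

namespace Pool.Agent.Results.MP_4bfc47_co.EveryExponent

open Filter Topology Pool.Agent.W166.Gnp Pool.Agent.Y680.CT.Defs

lemma gnp_eq (n : ℕ) (p : ℝ) (A : SimpleGraph (Fin n) → Prop) : gnp n p A =
    Pr (allE n) p (fun S => A (SimpleGraph.fromEdgeSet (S : Set (Sym2 (Fin n))))) := by
  classical
  unfold gnp
  exact sum_eq_Pr p A

lemma threshold {ι : Type} [Fintype ι] {H : SimpleGraph ι} {t₁ t₂ l₀ : ι}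
    (hH : Pool.Agent.Y680.CT.Struct H t₁ t₂) (hl : H.Adj t₁ l₀) (h12 : t₁ ≠ t₂) (hl2 : t₂ ≠ l₀)
    {vv ee : ℕ} (hvv : Fintype.card ι = vv + 3) (hee : H.edgeSet.ncard = ee + 2) (he0 : 1 ≤ ee)
    (p : ℕ → ℝ) (hp : ∀ n, 0 < p n ∧ p n ≤ 1)
    (h1 : Tendsto (fun n : ℕ => (n : ℝ) ^ (-(1 / 2) : ℝ) / p n) atTop (𝓝 0))
    (h2 : Tendsto (fun n : ℕ => p n / (n : ℝ) ^ (-((vv : ℝ) / ee))) atTop (𝓝 0)) :
    1 / 2 ≤ chromThreshold H p := by
  have hee0 : (0 : ℝ) < ee := by exact_mod_cast he0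
  have hlarge : ∀ A : ℝ, 0 < A → ∀ᶠ n : ℕ in atTop, A ≤ p n ^ 2 * n := by
    intro A hA
    have hs : 0 < 1 / Real.sqrt A := by positivity
    filter_upwards [h1.eventually (gt_mem_nhds hs), eventually_ge_atTop 1] with n hn hn1
    have hn0 : (0 : ℝ) < n := by exact_mod_cast hn1
    rw [div_lt_iff₀ (hp n).1] at hn
    have h3 : (n : ℝ) ^ (-(1 / 2) : ℝ) = 1 / Real.sqrt n := by
      rw [Real.rpow_neg hn0.le, ← Real.sqrt_eq_rpow, one_div]
    rw [h3, one_div_mul_eq_div, div_lt_div_iff₀ (Real.sqrt_pos.mpr hn0) (Real.sqrt_pos.mpr hA),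
      one_mul] at hn
    have h4 : Real.sqrt A ^ 2 ≤ (p n * Real.sqrt n) ^ 2 :=
      pow_le_pow_left₀ (Real.sqrt_nonneg _) hn.le 2
    rw [mul_pow, Real.sq_sqrt hA.le, Real.sq_sqrt hn0.le] at h4
    exact h4
  have hsmall : ∀ a : ℝ, 0 < a → ∀ᶠ n : ℕ in atTop, (n : ℝ) ^ vv * p n ^ ee ≤ a := by
    intro a ha
    have hs : 0 < min a 1 := lt_min ha one_pos
    filter_upwards [h2.eventually (gt_mem_nhds hs), eventually_ge_atTop 1] with n hn hn1
    have hn0 : (0 : ℝ) < n := by exact_mod_cast hn1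
    have hpow : (0 : ℝ) < (n : ℝ) ^ (-((vv : ℝ) / ee)) := by positivity
    have hx0 : 0 ≤ p n / (n : ℝ) ^ (-((vv : ℝ) / ee)) := by have := (hp n).1; positivity
    have h3 : (n : ℝ) ^ vv * p n ^ ee = (p n / (n : ℝ) ^ (-((vv : ℝ) / ee))) ^ ee := by
      rw [div_pow, ← Real.rpow_natCast ((n : ℝ) ^ (-((vv : ℝ) / ee))) ee, ← Real.rpow_mul hn0.le]
      have h5 : (-((vv : ℝ) / ee)) * (ee : ℝ) = -(vv : ℝ) := by
        field_simp
      rw [h5, Real.rpow_neg hn0.le, Real.rpow_natCast, div_inv_eq_mul]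
      ring
    rw [h3]
    have h4 : p n / (n : ℝ) ^ (-((vv : ℝ) / ee)) ≤ 1 := hn.le.trans (min_le_right _ _)
    calc (p n / (n : ℝ) ^ (-((vv : ℝ) / ee))) ^ ee ≤ (p n / (n : ℝ) ^ (-((vv : ℝ) / ee))) ^ 1 :=
          pow_le_pow_of_le_one hx0 h4 he0
      _ ≤ a := by rw [pow_one]; exact hn.le.trans (min_le_left _ _)
  have hp0 : ∀ p0 : ℝ, 0 < p0 → ∀ᶠ n : ℕ in atTop, p n ≤ p0 := by
    intro p0 hp0
    filter_upwards [h2.eventually (gt_mem_nhds hp0), eventually_ge_atTop 1] with n hn hn1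
    have hn0 : (0 : ℝ) < n := by exact_mod_cast hn1
    have hn1' : (1 : ℝ) ≤ n := by exact_mod_cast hn1
    have hpow : (0 : ℝ) < (n : ℝ) ^ (-((vv : ℝ) / ee)) := by positivity
    have hpow1 : (n : ℝ) ^ (-((vv : ℝ) / ee)) ≤ 1 :=
      Real.rpow_le_one_of_one_le_of_nonpos hn1' (by
        have : 0 ≤ (vv : ℝ) / ee := by positivity
        linarith)
    rw [div_lt_iff₀ hpow] at hn
    nlinarith
  refine Pool.Agent.Y680.CT.thr_lower H p hp (fun n A => gnp n (p n) A)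
    (fun n A => gnp_eq n (p n) A) (1 / 2) ?_ ?_
  · intro C ε hε
    obtain ⟨p0, A, a, n0, hp0', hA, ha, hmain⟩ :=
      Pool.Agent.Y680.CT.main hH hl h12 hl2 hvv hee C ε hε (1 / 4) (by norm_num)
    filter_upwards [hlarge A hA, hsmall a ha, hp0 p0 hp0', eventually_ge_atTop n0] with n b1 b2 b3 b4
    exact hmain n b4 (p n) (hp n).1 b3 b1 b2
  · have h3 : ∀ᶠ n : ℕ in atTop, (n : ℝ) ≤ p n * (n : ℝ) ^ 2 := by
      filter_upwards [hlarge 1 one_pos] with n hn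
      have h4 := (hp n).1
      have h5 := (hp n).2
      have h6 : p n ^ 2 * n ≤ p n * n := by
        have : (0 : ℝ) ≤ n := Nat.cast_nonneg n
        nlinarith [mul_nonneg h4.le this, mul_nonneg (mul_nonneg h4.le this) (sub_nonneg.mpr h5)]
      have h7 : 1 ≤ p n * n := hn.trans h6
      have : (0 : ℝ) ≤ n := Nat.cast_nonneg n
      nlinarith
    exact tendsto_atTop_mono' atTop h3 tendsto_natCast_atTop_atTop

/-- the family: part (1) of the result -/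
theorem family (L K : ℕ) (hL : 4 ≤ L) (hK : 2 ≤ K) (hKL : K ≤ L) :
    ∃ (V : Type) (_ : Fintype V) (H : SimpleGraph V),
    Fintype.card V = L + K + 2 ∧ H.edgeSet.ncard = 1 + L * (K + 1) ∧
    m2 H = (L : ℝ) * ((K : ℝ) + 1) / ((L : ℝ) + K) ∧ CloudForest H ∧ ¬ ThundercloudForest H ∧
    (∀ p : ℕ → ℝ, InRange H p → Tendsto (fun n : ℕ =>
      p n / (n : ℝ) ^ (-(((L : ℝ) + K - 1) / ((L : ℝ) * ((K : ℝ) + 1) - 1)))) atTop (𝓝 0) →
      1 / 2 ≤ chromThreshold H p) ∧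
    ∀ θ : ℝ, ((L : ℝ) + K - 1) / ((L : ℝ) * ((K : ℝ) + 1) - 1) < θ →
      θ < ((L : ℝ) + K) / ((L : ℝ) * ((K : ℝ) + 1)) → ∀ p : ℕ → ℝ, (∀ n, 0 < p n ∧ p n ≤ 1) →
        (∀ n : ℕ, 1 ≤ n → p n = (n : ℝ) ^ (-θ)) → InRange H p ∧
        1 / 2 ≤ chromThreshold H p := by
  have hcmp : ∀ c : ℝ, c < 0 → Tendsto (fun n : ℕ => (n : ℝ) ^ c) atTop (𝓝 0) := by
    intro c hc
    have := (tendsto_rpow_neg_atTop (y := -c) (by linarith)).comp
      (tendsto_natCast_atTop_atTop (R := ℝ))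
    rw [neg_neg] at this
    exact this
  obtain ⟨a, ha, h01, h10, haL⟩ : ∃ a : Bool → ℕ, (∀ i, 2 ≤ a i) ∧ a false ≤ a true + 1 ∧
      a true ≤ a false + 1 ∧ a false + a true = L := by
    refine ⟨fun b => if b then L - L / 2 else L / 2, ?_, ?_, ?_, ?_⟩
    · intro i
      cases i
      · show 2 ≤ L / 2
        omega
      · show 2 ≤ L - L / 2
        omega
    · show L / 2 ≤ L - L / 2 + 1
      omega
    · show L - L / 2 ≤ L / 2 + 1
      omega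
    · show L / 2 + (L - L / 2) = L
      omega
  have hLr : (4 : ℝ) ≤ L := by exact_mod_cast hL
  have hKr : (2 : ℝ) ≤ K := by exact_mod_cast hK
  have hLK0 : 0 < (L : ℝ) * ((K : ℝ) + 1) := by positivity
  have hden : 0 < (L : ℝ) * ((K : ℝ) + 1) - 1 := by nlinarith
  have hm2 := Pool.Agent.Y680.CU.m2_HN ha h01 h10 hK (by omega)
  rw [haL] at hm2
  have hcard : Fintype.card (Pool.Agent.Y680.CU.HV a K) = L + K + 2 := by
    rw [Pool.Agent.Y680.CU.card_HV, haL]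
  have hedge : (Pool.Agent.Y680.CU.HN a K).edgeSet.ncard = 1 + (L + L * K) := by
    rw [Pool.Agent.Y680.CU.edges_HN, haL]
  obtain ⟨vv, hvv⟩ : ∃ vv, L + K + 2 = vv + 3 := ⟨L + K - 1, by omega⟩
  obtain ⟨ee, hee⟩ : ∃ ee, 1 + (L + L * K) = ee + 2 := ⟨L + L * K - 1, by omega⟩
  have hvr : (vv : ℝ) = (L : ℝ) + K - 1 := by
    have : (L + K + 2 : ℝ) = vv + 3 := by exact_mod_cast hvv
    linarith
  have her : (ee : ℝ) = (L : ℝ) * ((K : ℝ) + 1) - 1 := by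
    have : (1 + (L + L * K) : ℝ) = ee + 2 := by exact_mod_cast hee
    nlinarith
  have he0 : 1 ≤ ee := by omega
  have hthr : ∀ p : ℕ → ℝ, (∀ n, 0 < p n ∧ p n ≤ 1) →
      Tendsto (fun n : ℕ => (n : ℝ) ^ (-(1 / 2) : ℝ) / p n) atTop (𝓝 0) →
      Tendsto (fun n : ℕ =>
        p n / (n : ℝ) ^ (-(((L : ℝ) + K - 1) / ((L : ℝ) * ((K : ℝ) + 1) - 1)))) atTop (𝓝 0) →
      1 / 2 ≤ chromThreshold (Pool.Agent.Y680.CU.HN a K) p := by
    intro p hp h1 h2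
    rw [← hvr, ← her] at h2
    refine threshold (Pool.Agent.Y680.CU.struct_HN ha hK)
      (l₀ := Pool.Agent.Y680.CU.lf ⟨false, ⟨0, by have := ha false; omega⟩⟩) rfl ?_ ?_
      (hcard.trans hvv) (hedge.trans hee) he0 p hp h1 h2
    · intro h
      exact absurd (Sum.inl.inj h) (by decide)
    · exact fun h => nomatch h
  refine ⟨Pool.Agent.Y680.CU.HV a K, inferInstance, Pool.Agent.Y680.CU.HN a K,
    hcard, ?_, hm2, Pool.Agent.Y680.CU.cloudForest_HN,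
    Pool.Agent.Y680.CU.not_thundercloud ha hK, fun p hp h => hthr p hp.prob hp.half h, ?_⟩
  · rw [hedge]
    ring
  · intro θ hθ1 hθ2 p hp hpθ
    have hθ0 : 0 < θ := by
      refine lt_trans (div_pos ?_ hden) hθ1
      linarith
    have hhalf : θ < 1 / 2 := by
      refine lt_of_lt_of_le hθ2 ?_
      rw [div_le_div_iff₀ hLK0 (by norm_num)]
      nlinarith [mul_nonneg (sub_nonneg.2 hLr) (show (0 : ℝ) ≤ (K : ℝ) - 1 by linarith)]
    have hev : ∀ c : ℝ, ∀ᶠ n : ℕ in atTop, (n : ℝ) ^ (c + θ) = (n : ℝ) ^ c / p n := by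
      intro c
      filter_upwards [eventually_ge_atTop 1] with n hn
      have hn1 : (0 : ℝ) < n := by exact_mod_cast hn
      rw [hpθ n hn, ← Real.rpow_sub hn1]
      congr 1
      ring
    have h1 : Tendsto (fun n : ℕ => (n : ℝ) ^ (-(1 / 2) : ℝ) / p n) atTop (𝓝 0) :=
      (hcmp (-(1 / 2) + θ) (by linarith)).congr' (hev _)
    refine ⟨⟨hp, ?_, h1, ?_⟩, hthr p hp h1 ?_⟩
    · have h3 : (1 : ℝ) / m2 (Pool.Agent.Y680.CU.HN a K) =
          ((L : ℝ) + K) / ((L : ℝ) * ((K : ℝ) + 1)) := by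
        rw [hm2, one_div_div]
      rw [h3]
      exact (hcmp (-(((L : ℝ) + K) / ((L : ℝ) * ((K : ℝ) + 1))) + θ) (by linarith)).congr' (hev _)
    · refine (hcmp (-θ) (by linarith)).congr' ?_
      filter_upwards [eventually_ge_atTop 1] with n hn
      rw [hpθ n hn]
    · refine (hcmp (-θ + ((L : ℝ) + K - 1) / ((L : ℝ) * ((K : ℝ) + 1) - 1))
        (by linarith)).congr' ?_
      filter_upwards [eventually_ge_atTop 1] with n hn
      have hn1 : (0 : ℝ) < n := by exact_mod_cast hn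
      rw [hpθ n hn, ← Real.rpow_sub hn1]
      congr 1
      ring

/-- the intervals of the family cover `(0, 1/2)` -/
theorem cover (θ : ℝ) (h0 : 0 < θ) (h1 : θ < 1 / 2) : ∃ L K : ℕ, 4 ≤ L ∧ 2 ≤ K ∧ K ≤ L ∧
    ((L : ℝ) + K - 1) / ((L : ℝ) * ((K : ℝ) + 1) - 1) < θ ∧
    θ < ((L : ℝ) + K) / ((L : ℝ) * ((K : ℝ) + 1)) := by
  classical
  obtain ⟨K0, hK0⟩ := exists_nat_gt (1 / θ)
  have hex : ∃ K : ℕ, 2 ≤ K ∧ 1 < θ * ((K : ℝ) + 1) := by
    refine ⟨K0 + 2, by omega, ?_⟩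
    rw [div_lt_iff₀ h0] at hK0
    push_cast
    nlinarith
  obtain ⟨K, hK2, hKθ, hKθ'⟩ : ∃ K : ℕ, 2 ≤ K ∧ 1 < θ * ((K : ℝ) + 1) ∧
      θ * ((K : ℝ) + 2) < 2 := by
    have hs := Nat.find_spec hex
    refine ⟨Nat.find hex, hs.1, hs.2, ?_⟩
    rcases eq_or_lt_of_le hs.1 with h | h
    · rw [← h]
      push_cast
      linarith
    · have hm := Nat.find_min hex (m := Nat.find hex - 1) (by omega)
      have h2 : θ * (((Nat.find hex - 1 : ℕ) : ℝ) + 1) ≤ 1 := by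
        by_contra hcon
        push Not at hcon
        exact hm ⟨by omega, hcon⟩
      have h3 : ((Nat.find hex - 1 : ℕ) : ℝ) + 1 = (Nat.find hex : ℝ) := by
        have : Nat.find hex - 1 + 1 = Nat.find hex := by omega
        exact_mod_cast this
      rw [h3] at h2
      nlinarith
  have hKr : (2 : ℝ) ≤ K := by exact_mod_cast hK2
  obtain ⟨δ, hδ⟩ : ∃ δ, δ = θ * ((K : ℝ) + 1) - 1 := ⟨_, rfl⟩
  have hδ0 : 0 < δ := by rw [hδ]; linarith
  obtain ⟨L1, hL1⟩ := exists_nat_gt ((K : ℝ) / δ)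
  have hex2 : ∃ L : ℕ, (K : ℝ) ≤ L * δ := by
    refine ⟨L1, ?_⟩
    rw [div_lt_iff₀ hδ0] at hL1
    exact hL1.le
  obtain ⟨L, hLK, hL3, hL4⟩ : ∃ L : ℕ, K + 2 ≤ L ∧ (L : ℝ) * δ < K ∧ (K : ℝ) ≤ ((L : ℝ) + 1) * δ := by
    have hs := Nat.find_spec hex2
    have hbig : K + 2 < Nat.find hex2 := by
      by_contra hcon
      push Not at hcon
      have h2 : ((Nat.find hex2 : ℕ) : ℝ) ≤ (K : ℝ) + 2 := by exact_mod_cast hcon
      have h3 : ((Nat.find hex2 : ℕ) : ℝ) * δ ≤ ((K : ℝ) + 2) * δ :=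
        mul_le_mul_of_nonneg_right h2 hδ0.le
      have h4 : ((K : ℝ) + 2) * δ < K := by
        rw [hδ]
        nlinarith
      linarith
    refine ⟨Nat.find hex2 - 1, by omega, ?_, ?_⟩
    · have hm := Nat.find_min hex2 (m := Nat.find hex2 - 1) (by omega)
      exact not_le.1 hm
    · have h3 : ((Nat.find hex2 - 1 : ℕ) : ℝ) + 1 = (Nat.find hex2 : ℝ) := by
        have : Nat.find hex2 - 1 + 1 = Nat.find hex2 := by omega
        exact_mod_cast this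
      rw [h3]
      exact hs
  have hLr : (K : ℝ) + 2 ≤ L := by exact_mod_cast hLK
  have hLK0 : 0 < (L : ℝ) * ((K : ℝ) + 1) := by
    have : (0 : ℝ) < L := by linarith
    positivity
  have hden : 0 < (L : ℝ) * ((K : ℝ) + 1) - 1 := by nlinarith
  refine ⟨L, K, by omega, hK2, by omega, ?_, ?_⟩
  · rw [div_lt_iff₀ hden]
    have e : θ * ((L : ℝ) * ((K : ℝ) + 1) - 1) = L * δ + L - θ := by rw [hδ]; ring
    rw [e]
    have e2 : δ + θ = θ * ((K : ℝ) + 2) - 1 := by rw [hδ]; ring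
    nlinarith
  · rw [lt_div_iff₀ hLK0]
    have e : θ * ((L : ℝ) * ((K : ℝ) + 1)) = L * δ + L := by rw [hδ]; ring
    rw [e]
    linarith

/-- (1) For all `L ≥ 4` and `2 ≤ K ≤ L` there is a graph `H` with `L + K + 2` vertices,
`1 + L (K + 1)` edges and `m₂(H) = L (K + 1) / (L + K)` which is cloud-forest but not
thundercloud-forest, such that `δ_χ(H,p) ≥ 1/2` for every `p` in the range of Q1 with
`p ≪ n^{-c}`, `c = (L + K - 1) / (L (K + 1) - 1)`; and for every real `θ` strictly between `c` and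
`1/m₂(H)`, `p = n^{-θ}` is in the range and has `δ_χ(H,p) ≥ 1/2`.
(2) For every real `θ` with `0 < θ < 1/2` there is a cloud-forest graph `H` which is not
thundercloud-forest, such that `p = n^{-θ}` is in the range of Q1 and `δ_χ(H,p) ≥ 1/2`. -/
theorem result : (∀ L K : ℕ, 4 ≤ L → 2 ≤ K → K ≤ L →
    ∃ (V : Type) (_ : Fintype V) (H : SimpleGraph V),
    Fintype.card V = L + K + 2 ∧ H.edgeSet.ncard = 1 + L * (K + 1) ∧
    m2 H = (L : ℝ) * ((K : ℝ) + 1) / ((L : ℝ) + K) ∧ CloudForest H ∧ ¬ ThundercloudForest H ∧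
    (∀ p : ℕ → ℝ, InRange H p → Tendsto (fun n : ℕ =>
      p n / (n : ℝ) ^ (-(((L : ℝ) + K - 1) / ((L : ℝ) * ((K : ℝ) + 1) - 1)))) atTop (𝓝 0) →
      1 / 2 ≤ chromThreshold H p) ∧
    ∀ θ : ℝ, ((L : ℝ) + K - 1) / ((L : ℝ) * ((K : ℝ) + 1) - 1) < θ →
      θ < ((L : ℝ) + K) / ((L : ℝ) * ((K : ℝ) + 1)) → ∀ p : ℕ → ℝ, (∀ n, 0 < p n ∧ p n ≤ 1) →
        (∀ n : ℕ, 1 ≤ n → p n = (n : ℝ) ^ (-θ)) → InRange H p ∧
        1 / 2 ≤ chromThreshold H p) ∧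
    ∀ θ : ℝ, 0 < θ → θ < 1 / 2 → ∃ (V : Type) (_ : Fintype V) (H : SimpleGraph V),
      CloudForest H ∧ ¬ ThundercloudForest H ∧ ∀ p : ℕ → ℝ, (∀ n, 0 < p n ∧ p n ≤ 1) →
        (∀ n : ℕ, 1 ≤ n → p n = (n : ℝ) ^ (-θ)) → InRange H p ∧ 1 / 2 ≤ chromThreshold H p := by
  refine ⟨family, ?_⟩
  intro θ h0 h1
  obtain ⟨L, K, hL, hK, hKL, g1, g2⟩ := cover θ h0 h1
  obtain ⟨V, hV, H, -, -, -, hc, ht, -, h⟩ := family L K hL hK hKL
  exact ⟨V, hV, H, hc, ht, h θ g1 g2⟩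

end Pool.Agent.Results.MP_4bfc47_co.EveryExponent
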